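import Pool.Agent.J4.H58.AF.Fj

/-!
# MP_c481b3_nt: the Sato-Tate law over almost all number fields

`K` is a number field, and `E`, `L` run through its finite extensions with `comps E E ≤ r + 1`, where
`comps E E` is the number of factors of `E ⊗ E`, that is, the number of orbits of the Galois group on
pairs of embeddings of `E`. These are all extensions of degree at most `r + 1`, and many others: for
`r = 1`, all extensions of any degree with doubly transitive Galois group.

(1) Let `y v` be arbitrary points of a compact space `Y`, one for each prime `v` of `K`, and let `F` be a
totally bounded set of continuous functions on `Y`. There is a number `C`, depending only on `F`, `r` and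
`ε`, such that, for every finite set `S` of fields `E` and every large height `N`, the means over the
primes of norm at most `N` of `E` and of `K` of each `f ∈ F` differ by at most `ε`, for all `E ∈ S`
whose Galois closure contains none of at most `C` exceptional Galois fields `M ≠ K`. (If
`comps E E = 2`, then it is enough that the Galois closure of `E` is not itself exceptional.) For
one function `f` one can take `C = (r + 1)² sup |f|² / ε²`. Each exceptional field `M` contains
a field `L` for which the means over `L` and over `K` of some `f ∈ F` are not asymptotically equal.

(2) For every `κ > 0` and for every sequence of nonempty finite sets of heights which tends to infinity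
(for instance single heights) there are at most `C / κ` fields `M ≠ K` as in (1) and a subsequence,
such that for all `E` whose Galois closure contains none of these `M` this is true for all but
`κ |W|` of the heights in the set `W`, for all large members `W` of the subsequence.

(3) Let `ρ` be a symplectic representation of the absolute Galois group of `K` which is unramified outside
of a finite set (for instance that of an abelian variety over `K`), with connected Sato-Tate group, and
such that the Sato-Tate law holds over `K` for the class functions in `F`. Then the Sato-Tate law holds
for `f ∈ F` up to `ε`, in the sense of (1) and (2), over all `E` but the exceptional ones. The number `C`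
depends only on the Sato-Tate group, `F`, `r` and `ε`, and not on `K` and `ρ`. Each exceptional
field `M` contains a field `L` over which the Sato-Tate law fails for some `f ∈ F`. (So no totally real
field is exceptional for an elliptic curve without complex multiplication over a totally real field,
by the known cases of the conjecture.)

The law over `K` is known for all elliptic curves without complex multiplication over totally real
fields, and over general extensions `E` it is not known.

Proof. The mean over `E` is the mean over `K` with the permutation character `π` of `E`, up to `o(1)`.
Let `χ` run through the irreducible characters of `Gal(K̄/K)` with finite image. By Chebotarev's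
theorem and Bessel's inequality the sum of the squares of the means of `f (y v) χ(Frob v)` is at most
`sup |f|²` up to `o(1)`, so few of them are large, also in the mean square over a window of heights. The
exceptional fields are the fixed fields of the kernels of these `χ`. Since `π` is the sum of `1` and of at
most `r` characters `χ`, counted with the squares of their multiplicities, and since their kernels
contain the Galois group of the Galois closure of `E`, the first claims follow. If `M` is a Galois field
inside of the Galois closure of `E`, then the part of `π` on which the Galois group of `M` acts
trivially is the permutation character of `L = E ∩ M`, and `comps L L ≤ comps E E`. If the law holds over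
all fields `L` in `M`, it follows by induction on the degree of `M` that the part of `π` belonging
to the characters `χ` with the field `M` contributes nothing, so that `M` can be left out.

The files `J4/H58/AF/Pb.lean`, `Ub.lean`, `Ex.lean` are by helper52 and helper85, `Pm.lean` is by
helper85, `Gb.lean` by helper16, `Ia.lean` and `Or.lean` by helper40.
-/

set_option autoImplicit false

namespace Pool.Agent.Results.MP_c481b3_nt.AlmostAllFields

open Pool.Agent.K4H40.ST Pool.Agent.K4H53.SI Pool.Agent.J4.H58.STC Pool.Agent.J4.H58.AF
open NumberField IsDedekindDomain Filter Topology MeasureTheory

theorem result :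
    -- (1), (2) arbitrary data
    (∀ (Y : Type) [TopologicalSpace Y] [CompactSpace Y] (F : Set C(Y, ℂ)), TotallyBounded F →
      ∀ (r : ℕ) (ε : ℝ), 0 < ε → ∃ C : ℝ,
        (∀ f, F = {f} → C ≤ (r + 1) ^ 2 * ‖f‖ ^ 2 / ε ^ 2) ∧
        ∀ (K : Type) [Field K] [NumberField K] (y : HeightOneSpectrum (𝓞 K) → Y)
          (z : ∀ (E : IntermediateField K (AlgebraicClosure K)) [NumberField E],
            HeightOneSpectrum (𝓞 E) → Y), AllLift F r y z → Agree F r C ε y z) ∧
    -- (3) the Sato-Tate law
    (∀ (g : ℕ) (G : Subgroup (GL (Fin g ⊕ Fin g) ℂ)) [CompactSpace G] [ConnectedSpace G]
      [MeasurableSpace G] [BorelSpace G] (μ : Measure G) [IsProbabilityMeasure μ]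
      [μ.IsMulLeftInvariant] (F : Set C(G, ℂ)), TotallyBounded F →
      (∀ f ∈ F, ∀ c h, f (h * c * h⁻¹) = f c) → ∀ (r : ℕ) (ε : ℝ), 0 < ε →
      ∃ C : ℝ, (∀ f, F = {f} → C ≤ 4 * (r + 1) ^ 2 * ‖f‖ ^ 2 / ε ^ 2) ∧
        ∀ (K : Type) [Field K] [NumberField K] (R : Type) [CommRing R]
          (ρ : Gal(AlgebraicClosure K/K) →* GL (Fin g ⊕ Fin g) R) (ι : R →+* ℂ)
          (x : HeightOneSpectrum (𝓞 K) → G), IsRep G ρ ι x →
          (∀ f ∈ F, Tendsto (avg K fun v => f (x v)) atTop (𝓝 (∫ c, f c ∂μ))) →
          ∃ z : ∀ (E : IntermediateField K (AlgebraicClosure K)) [NumberField E],
              HeightOneSpectrum (𝓞 E) → G, AllClasses G ρ ι z ∧ LawHolds μ F r C ε z) := by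
  refine ⟨fun Y _ _ F hF r ε hε => ?_, fun g G _ _ _ _ μ _ _ F hF hcl r ε hε =>
    law2 μ F hF hcl r hε⟩
  obtain ⟨C, h0, h1, h2⟩ := windows2 F hF r hε
  exact ⟨C, h1, fun K _ _ y z hz => ⟨heights_of_windows h0 (h2 K y z hz), h2 K y z hz⟩⟩

end Pool.Agent.Results.MP_c481b3_nt.AlmostAllFields
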