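import Pool.Agent.J4.H58.STC.Fin

/-!
# MP_c481b3_nt: coverings of the Galois group by fields over which the Sato-Tate conjecture holds

`K` is a number field, `Γ = Gal(K̄/K)` with its Haar probability measure `m`, and `ρ` is a symplectic
representation of `Γ` which is unramified outside a finite set, for instance the representation on
`V_ℓ(A)` for an abelian variety `A` over `K`. A number field `E ⊇ K` is good if the Sato-Tate
conjecture holds for `ρ` over all finite extensions of `E` (`HoldsAbove`).

(1) For every family `U` of good fields, the discrepancy over `K` of every class function `f` is in the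
limit at most `2 sup |f|` times the measure of the set of the `σ ∈ Γ` which fix no conjugate of a field
in `U`.

(2) All finite extensions of `K` are good if and only if almost every `σ ∈ Γ` fixes elementwise some
good field, that is, the fixed field of almost every `σ` contains a good field. Conversely, if the
conjecture fails over one finite extension of `K`, the set of the `σ` whose fixed field contains no good
field has positive measure.

(3) This happens if there are good fields `E_i` contained in Galois extensions `M_i` of `K` which are
linearly disjoint, with divergent sum of the densities `dens (E i)` of the sets of the `σ` which fix a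
conjugate of `E_i`. There is no condition on the degrees of the `E_i`.
-/

set_option autoImplicit false

namespace Pool.Agent.Results.MP_c481b3_nt.CoveringByGoodFields

open Pool.Agent.K4H40.ST Pool.Agent.K4H53.SI Pool.Agent.J4.H58.STC
open NumberField IsDedekindDomain Filter Topology MeasureTheory

theorem result {K : Type} [Field K] [NumberField K] {g : ℕ} {R : Type} [CommRing R]
    (ρ : Gal(AlgebraicClosure K/K) →* GL (Fin g ⊕ Fin g) R) (ι : R →+* ℂ)
    (hsymp : IsSymplectic ρ) (hunr : IsUnramified K (AlgebraicClosure K) ρ)
    [MeasurableSpace Gal(AlgebraicClosure K/K)] [BorelSpace Gal(AlgebraicClosure K/K)]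
    (m : Measure Gal(AlgebraicClosure K/K)) [IsProbabilityMeasure m] [m.IsMulLeftInvariant] :
    -- (1) the discrepancy and the measure of the set which is not covered
    (∀ U : Set (IntermediateField K (AlgebraicClosure K)), (∀ E ∈ U, HoldsAbove ρ ι E) →
      ∀ C : Subgroup (GL (Fin g ⊕ Fin g) ℂ), IsSatoTateGroup (extend ρ ι) C →
      ∀ x : HeightOneSpectrum (𝓞 K) → C,
        IsClassSystem K (AlgebraicClosure K) (extend ρ ι) C x →
      ∀ [MeasurableSpace C] [BorelSpace C] (μ : Measure C) [IsProbabilityMeasure μ]
        [μ.IsMulLeftInvariant]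
        (f : C → ℂ), Continuous f → (∀ c h, f (h * c * h⁻¹) = f c) →
      ∀ B : ℝ, (∀ c, ‖f c‖ ≤ B) → ∀ ε : ℝ, 0 < ε →
      ∀ᶠ N in atTop, ‖disc K μ x f N‖ ≤ 2 * B * m.real
        {σ | ∀ E ∈ U, ∀ τ : Gal(AlgebraicClosure K/K), τ⁻¹ * σ * τ ∉ E.fixingSubgroup} + ε) ∧
    -- (2) a measure-theoretic criterion for Sato-Tate over all finite extensions
    ((∀ᵐ σ ∂m, ∃ E : IntermediateField K (AlgebraicClosure K), HoldsAbove ρ ι E ∧
        E ≤ IntermediateField.fixedField (Subgroup.zpowers σ)) ↔
      ∀ (L : IntermediateField K (AlgebraicClosure K)) [NumberField L], SatoTateOver ρ ι L) ∧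
    -- (3) infinitely many good fields with independent Galois closures
    (∀ E M : ℕ → IntermediateField K (AlgebraicClosure K),
      (∀ i, HoldsAbove ρ ι (E i)) →
      (∀ i, FiniteDimensional K (M i)) → (∀ i, IsGalois K (M i)) → (∀ i, E i ≤ M i) →
      (∀ n : ℕ, Module.finrank K (⨆ i : Fin n, M i : IntermediateField K (AlgebraicClosure K)) =
        ∏ i : Fin n, Module.finrank K (M i)) →
      (¬ Summable fun i => dens m (E i)) →
      ∀ (L : IntermediateField K (AlgebraicClosure K)) [NumberField L], SatoTateOver ρ ι L) := by
  refine ⟨?_, ae_iff_all ρ ι hsymp hunr m, ?_⟩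
  · intro U hU C hC x hx _ _ μ _ _ f hf hcl B hB ε hε
    have h1 := cover_all (extend ρ ι) (unr_extend ρ ι hunr) (Final.isSim_of ρ ι hsymp) U
      (fun E hE => by haveI := (hU E hE).1; exact finite_of E)
      (fun E hE => her_of ρ ι E (hU E hE)) m C hC x hx μ f hf hcl B hB ε hε
    have h2 : (fixSet U)ᶜ = {σ | ∀ E ∈ U, ∀ τ : Gal(AlgebraicClosure K/K),
        τ⁻¹ * σ * τ ∉ E.fixingSubgroup} := by
      ext σ
      simp [fixSet]
    rw [h2] at h1
    exact h1
  · intro E M hE hfd hgal hEM hM hs L _
    exact indep_fields ρ ι hsymp hunr m E M hE hfd hgal hEM hM hs L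

end Pool.Agent.Results.MP_c481b3_nt.CoveringByGoodFields
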