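import Pool.Agent.J4.H58.JU.Over

/-!
# MP_c481b3_nt: Sato-Tate jointly with all Artin symbols, and over all number fields, from `ℚ` and the
everywhere unramified nontrivial characters of the totally complex fields

`ρ` is a symplectic representation of `Gal(ℚ̄/ℚ)`, unramified outside a finite set, for instance the
representation on `V_ℓ(A)` for an abelian variety `A` over `ℚ`, with Sato-Tate group `C` and classes
`x v`. The characters `χ` are those of the Galois groups of all Galois extensions `L / K` of number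
fields, and `jmean φ χ N` is the mean of `φ(v) χ(Frob 𝔭)` over the primes `𝔭` of `K` of degree one and
of norm at most `N`, where `v` is the prime below `𝔭`.

(1) Let `φ` be any bounded function of the primes of `ℚ`. If the means `jmean φ ψ` tend to `0` for the
nontrivial faithful linear characters `ψ` of the extensions `L / K`, `K` totally complex, which are
unramified at all finite primes and in which the primes above `q` split completely (`Unr q φ`), then
for all `χ` the mean `jmean φ χ` is, up to `o(1)`, the mean value of `χ` times the mean of `φ` over the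
primes of `ℚ`.

(2) For every class function `f`, the Sato-Tate law for `f` over `ℚ` and `Unr q (f ∘ x)` are equivalent
to the Sato-Tate law for `f` jointly with all characters `χ`.

(3) For every number field `F` there are a Sato-Tate group `D ≤ C` and classes `y w` over `F` such that
for all class functions `f` with `Unr q (f ∘ x)` the means over `F` and over `ℚ` are asymptotically
equal.

(4) Let `C` be connected. If the Sato-Tate law holds over `ℚ`, and `Unr q (f ∘ x)` for all class
functions `f`, then `C` is a Sato-Tate group over every number field `F`, with classes `y w` for which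
the Sato-Tate law holds over `F`.
-/

set_option autoImplicit false

namespace Pool.Agent.Results.MP_c481b3_nt.JointUnramified

open Pool.Agent.K4H40.ST Pool.Agent.K4H53.SI Pool.Agent.J4.H58.JU
open Pool.Agent.K4H74.SK (Ext G IsChr lin)
open NumberField IsDedekindDomain Filter Topology MeasureTheory

/-- The means of `φ` and of the nontrivial unramified characters of the totally complex fields tend
to zero. -/
def Unr (q : ℕ) (φ : HeightOneSpectrum (𝓞 ℚ) → ℂ) : Prop :=
  ∀ (E : Ext) (ψ : G E →* ℂˣ), UnrChar q E ψ → Tendsto (jmean φ (lin ψ)) atTop (𝓝 0)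

/-- `φ` has the mean value `c`, and it is independent of all Artin symbols. -/
def Joint (φ : HeightOneSpectrum (𝓞 ℚ) → ℂ) (c : ℂ) : Prop :=
  ∀ (E : Ext) (χ : G E → ℂ), IsChr χ → Tendsto (jmean φ χ) atTop (𝓝 (meanVal χ * c))

theorem isChr_one {E : Ext} : IsChr (fun _ : G E => (1 : ℂ)) := by
  refine ⟨1, 1, fun g => ?_⟩
  rw [MonoidHom.one_apply, Matrix.trace_one]
  simp

theorem isChr_linear {E : Ext} (ψ : G E →* ℂˣ) : IsChr (lin ψ) := by
  refine ⟨1, { toFun := fun g => Matrix.of fun _ _ => ((ψ g : ℂˣ) : ℂ)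
               map_one' := by
                 ext i j
                 rw [map_one, Subsingleton.elim i j]
                 simp
               map_mul' := fun a b => by
                 ext i j
                 rw [Matrix.mul_apply]
                 simp }, fun g => ?_⟩
  simp [Matrix.trace, lin]

theorem joint_iff {q : ℕ} (hq : q ≠ 0) {φ : HeightOneSpectrum (𝓞 ℚ) → ℂ} {B : ℝ}
    (hφ : ∀ v, ‖φ v‖ ≤ B) {c : ℂ} :
    Joint φ c ↔ Tendsto (avg ℚ φ) atTop (𝓝 c) ∧ Unr q φ := by
  constructor
  · intro h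
    constructor
    · have h1 := h ⟨ℚ, ℚ⟩ (fun _ => 1) isChr_one
      have h2 : meanVal (fun _ : G ⟨ℚ, ℚ⟩ => (1 : ℂ)) = 1 := by
        rw [meanVal_eq]
        exact tmult_one (G := ℚ ≃ₐ[ℚ] ℚ)
      rw [h2, one_mul] at h1
      have h3 := (smean_avg hφ).add h1
      rw [zero_add] at h3
      refine h3.congr fun N => ?_
      rw [jmean_eq]
      exact sub_add_cancel _ _
    · intro E ψ hψ
      have h1 := h E (lin ψ) (isChr_linear ψ)
      rwa [meanVal_lin hψ.nontrivial, zero_mul] at h1
  · rintro ⟨h1, h2⟩ E χ hχ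
    have h3 := (joint hq hφ h2 hχ).add (h1.const_mul (meanVal χ))
    rw [zero_add] at h3
    exact h3.congr fun N => sub_add_cancel _ _

theorem result {g : ℕ} {R : Type} [CommRing R]
    (ρ : Gal(AlgebraicClosure ℚ/ℚ) →* GL (Fin g ⊕ Fin g) R) (ι : R →+* ℂ)
    (hsymp : IsSymplectic ρ) (hunr : IsUnramified ℚ (AlgebraicClosure ℚ) ρ)
    (C : Subgroup (GL (Fin g ⊕ Fin g) ℂ)) (hC : IsSatoTateGroup (extend ρ ι) C)
    (x : HeightOneSpectrum (𝓞 ℚ) → C)
    (hx : IsClassSystem ℚ (AlgebraicClosure ℚ) (extend ρ ι) C x) (q : ℕ) (hq : q ≠ 0) :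
    -- (1) bounded functions of the primes
    (∀ (φ : HeightOneSpectrum (𝓞 ℚ) → ℂ) (B : ℝ), (∀ v, ‖φ v‖ ≤ B) → Unr q φ →
      ∀ (E : Ext) (χ : G E → ℂ), IsChr χ →
        Tendsto (fun N => jmean φ χ N - meanVal χ * avg ℚ φ N) atTop (𝓝 0)) ∧
    -- (2) Sato-Tate jointly with the Artin symbols
    (∀ [MeasurableSpace C] [BorelSpace C] (μ : Measure C) [IsProbabilityMeasure μ]
      [μ.IsMulLeftInvariant] (f : C → ℂ), Continuous f → (∀ c h, f (h * c * h⁻¹) = f c) →
      (Joint (fun v => f (x v)) (∫ c, f c ∂μ) ↔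
        Tendsto (avg ℚ fun v => f (x v)) atTop (𝓝 (∫ c, f c ∂μ)) ∧ Unr q fun v => f (x v))) ∧
    -- (3) comparison of the means over the number fields
    (∀ (F : IntermediateField ℚ (AlgebraicClosure ℚ)) [NumberField F],
      ∃ (D : Subgroup (GL (Fin g ⊕ Fin g) ℂ)) (hD : D ≤ C) (y : HeightOneSpectrum (𝓞 F) → D),
        IsSatoTateGroup (repOver ρ ι F) D ∧
        IsClassSystem F (AlgebraicClosure ℚ) (repOver ρ ι F) D y ∧
        ∀ f : C → ℂ, Continuous f → (∀ c h, f (h * c * h⁻¹) = f c) → (Unr q fun v => f (x v)) →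
          Tendsto (fun N => avg F (fun w => f (Subgroup.inclusion hD (y w))) N -
            avg ℚ (fun v => f (x v)) N) atTop (𝓝 0)) ∧
    -- (4) Sato-Tate over all number fields
    (ConnectedSpace C → ∀ [MeasurableSpace C] [BorelSpace C] (μ : Measure C)
      [IsProbabilityMeasure μ] [μ.IsMulLeftInvariant],
      (∀ f : C → ℂ, Continuous f → (∀ c h, f (h * c * h⁻¹) = f c) →
        Tendsto (avg ℚ fun v => f (x v)) atTop (𝓝 (∫ c, f c ∂μ)) ∧ Unr q fun v => f (x v)) →
      ∀ (F : IntermediateField ℚ (AlgebraicClosure ℚ)) [NumberField F],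
        IsSatoTateGroup (repOver ρ ι F) C ∧
        ∃ y : HeightOneSpectrum (𝓞 F) → C,
          IsClassSystem F (AlgebraicClosure ℚ) (repOver ρ ι F) C y ∧
          ∀ f : C → ℂ, Continuous f → (∀ c h, f (h * c * h⁻¹) = f c) →
            Tendsto (avg F fun w => f (y w)) atTop (𝓝 (∫ c, f c ∂μ))) := by
  have hcomp : CompactSpace C := isCompact_iff_compactSpace.mp hC.compact
  have hbd : ∀ f : C → ℂ, Continuous f → ∃ B : ℝ, ∀ c, ‖f c‖ ≤ B := by
    intro f hf
    obtain ⟨B, hB⟩ := isCompact_univ.exists_bound_of_continuousOn hf.continuousOn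
    exact ⟨B, fun c => hB c trivial⟩
  have h3 : ∀ (F : IntermediateField ℚ (AlgebraicClosure ℚ)) [NumberField F],
      ∃ (D : Subgroup (GL (Fin g ⊕ Fin g) ℂ)) (hD : D ≤ C) (y : HeightOneSpectrum (𝓞 F) → D),
        IsSatoTateGroup (repOver ρ ι F) D ∧
        IsClassSystem F (AlgebraicClosure ℚ) (repOver ρ ι F) D y ∧ (ConnectedSpace C → D = C) ∧
        ∀ f : C → ℂ, Continuous f → (∀ c h, f (h * c * h⁻¹) = f c) → (Unr q fun v => f (x v)) →
          Tendsto (fun N => avg F (fun w => f (Subgroup.inclusion hD (y w))) N -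
            avg ℚ (fun v => f (x v)) N) atTop (𝓝 0) := by
    intro F _
    obtain ⟨D, hD, y, h1, h2, h3, h4⟩ := exists_over ρ ι hsymp hunr hC hx F
    refine ⟨D, hD, y, h1, h2, h3, fun f hf hcl hU => ?_⟩
    obtain ⟨B, hB⟩ := hbd f hf
    have h5 := joint hq (φ := fun v => f (x v)) (B := B) (fun v => hB _) hU (E := ⟨F, F⟩)
      (χ := fun _ => 1) isChr_one
    have h6 : meanVal (fun _ : G ⟨F, F⟩ => (1 : ℂ)) = 1 := by
      rw [meanVal_eq]
      exact tmult_one (G := F ≃ₐ[F] F)
    have h7 := (h4 f hcl B hB).add h5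
    rw [add_zero] at h7
    refine h7.congr fun N => ?_
    rw [h6, jmean_eq]
    change _ + (smean (sq fun v => f (x v)) (fun _ : F ≃ₐ[F] F => 1) N - _) = _
    ring
  refine ⟨fun φ B hφ hU E χ hχ => joint hq hφ hU hχ, ?_, ?_, ?_⟩
  · intro _ _ μ _ _ f hf _
    obtain ⟨B, hB⟩ := hbd f hf
    exact joint_iff hq (B := B) fun v => hB _
  · intro F _
    obtain ⟨D, hD, y, h1, h2, -, h4⟩ := h3 F
    exact ⟨D, hD, y, h1, h2, h4⟩
  · intro hconn _ _ μ _ _ hST F _
    obtain ⟨D, hD, y, h1, h2, h5, h4⟩ := h3 F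
    obtain rfl := h5 hconn
    refine ⟨h1, y, h2, fun f hf hcl => ?_⟩
    obtain ⟨h6, h7⟩ := hST f hf hcl
    have h8 := (h4 f hf hcl h7).add h6
    rw [zero_add] at h8
    exact h8.congr fun N => sub_add_cancel _ _

end Pool.Agent.Results.MP_c481b3_nt.JointUnramified
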