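import Pool.Agent.J4.H34.PSU.Ell

/-!
# MP_c481b3_nt: from the Sato-Tate law for pairs to almost all products, over all extensions

`K₀` is a number field and `J` is a set of abelian varieties over `K₀`, of bounded dimension. For `j` in
`J` and a prime `v` of degree one of `K₀` let `a j v` be the Frobenius class in the compact metric space
`X` of the conjugacy classes of `USp(2d)`, and `μ j` the image of the Haar measure of the Sato-Tate group.
(More generally the `a j v` are points of any compact metric space and the `μ j` probability measures.)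
The hypothesis `PairLaw` on a finite subset `S` of `J` is that for any two different `j, k` in `S` the
Sato-Tate law holds for the product of the two varieties `j` and `k`, with the product of their
Sato-Tate groups. For elliptic curves without complex multiplication over a totally real field `K₀`, not
isogenous over the algebraic closure, this is a theorem. For products of three curves, and for one curve
over a general finite extension `K` of `K₀`, the Sato-Tate law is open.

(1) Let `K / K₀` be any finite extension. At every large height `x`, for all but `C |S|^g` of the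
`|S|^(g+1)` products of `g + 1` members of `S`, the Sato-Tate law over `K` is true up to `ε`, jointly with
and independently of arbitrary data `y v` in a compact space `Y` at the primes `v` of `K` (for instance
the Frobenius classes of an arbitrary further abelian variety over `K`), for all test functions of a
bounded equicontinuous family at once. `C` depends only on `ε`, the family of test functions and a bound
for `[K : K₀]`: it does not depend on `K₀`, `K`, `J`, `S`, `x`, `y`.

(2) With an exceptional set which does not depend on the height: along any sequence `h k → ∞` of heights,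
outside of `C |S|^g / κ` products the law holds up to `ε` at the heights `h k` for a set of the `k` of
upper density at least `1 - κ`.

(3) If `J` is infinite and any two members satisfy the Sato-Tate law, then for arbitrary data `y`, all but
`C / κ` members of `J` satisfy the law over `K` jointly with and independently of `y`, in the sense of (2).

(4) Bessel's inequality: the correlations of a bounded function `w` of the primes of `K` with orthonormal
systems of functions on `X` (for instance characters), for all `j` in `S`.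

(5) The special case of elliptic curves `y² = x³ + α x + β` over `K₀`, without data: outside of `C |S|^g`
tuples the empirical distribution of the `g + 1` angles over the primes of `K` has distance at most `ε`
from the Sato-Tate measure of `SU(2)^(g+1)`, in the metric of Kantorovich and Wasserstein.
-/

set_option autoImplicit false

namespace Pool.Agent.Results.MP_c481b3_nt.PairsToProducts

open Pool.Agent.J4.H34.PSU
open MeasureTheory Filter Topology NumberField

theorem result :
    -- (1) almost all tuples, at every large height, (2) along sequences of heights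
    (∀ (g : ℕ) (Y X : Type) [TopologicalSpace Y] [CompactSpace Y] [MetricSpace X] [CompactSpace X]
      [MeasurableSpace X] [BorelSpace X] (F : Set (Y × (Fin (g + 1) → X) → ℝ)),
      Equicontinuous ((↑) : F → Y × (Fin (g + 1) → X) → ℝ) →
      ∀ B : ℝ, (∀ f ∈ F, ∀ z, |f z| ≤ B) → ∀ (D : ℕ) (ε : ℝ), 0 < ε →
      ∃ C : ℕ, ∀ (K₀ K : Type) [Field K₀] [NumberField K₀] [Field K] [NumberField K]
        [Algebra K₀ K], Module.finrank K₀ K ≤ D →
        ∀ (J : Type) (a : J → OnPrimes K₀ X) (μ : J → Measure X)
        [∀ j, IsProbabilityMeasure (μ j)] (S : Finset J), PairLaw K₀ a μ S →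
        (∃ x₀ : ℕ, ∀ x ≥ x₀, ∀ y : OnPrimes K Y,
          ∃ T : Finset (Fin (g + 1) → J), T.card ≤ C * S.card ^ g ∧
            ∀ j : Fin (g + 1) → J, (∀ i, j i ∈ S) → j ∉ T → ∀ f ∈ F,
            |meanK K x (fun p v => f (y p v, fun i => a (j i) p (under K₀ K v)))
              - meanK K x (fun p v => ∫ t, f (y p v, t) ∂(Measure.pi fun i => μ (j i)))| ≤ ε) ∧
        (∀ y : OnPrimes K Y, ∀ h : ℕ → ℕ, Tendsto h atTop atTop → ∀ κ : ℝ, 0 < κ →
          ∃ T : Finset (Fin (g + 1) → J), (T.card : ℝ) * κ ≤ C * S.card ^ g ∧
            ∀ j : Fin (g + 1) → J, (∀ i, j i ∈ S) → j ∉ T → Often κ fun k => ∀ f ∈ F,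
            |meanK K (h k) (fun p v => f (y p v, fun i => a (j i) p (under K₀ K v)))
              - meanK K (h k)
                (fun p v => ∫ t, f (y p v, t) ∂(Measure.pi fun i => μ (j i)))| ≤ ε)) ∧
    -- (3) almost all members of an infinite family
    (∀ (Y X : Type) [TopologicalSpace Y] [CompactSpace Y] [MetricSpace X] [CompactSpace X]
      [MeasurableSpace X] [BorelSpace X] (F : Set (Y × X → ℝ)),
      Equicontinuous ((↑) : F → Y × X → ℝ) →
      ∀ B : ℝ, (∀ f ∈ F, ∀ z, |f z| ≤ B) → ∀ (D : ℕ) (ε : ℝ), 0 < ε →
      ∃ C : ℕ, ∀ (K₀ K : Type) [Field K₀] [NumberField K₀] [Field K] [NumberField K]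
        [Algebra K₀ K], Module.finrank K₀ K ≤ D →
        ∀ (J : Type) (a : J → OnPrimes K₀ X) (μ : J → Measure X)
        [∀ j, IsProbabilityMeasure (μ j)], (∀ S : Finset J, PairLaw K₀ a μ S) →
        ∀ y : OnPrimes K Y, ∀ h : ℕ → ℕ, Tendsto h atTop atTop → ∀ κ : ℝ, 0 < κ →
        ∃ T : Finset J, (T.card : ℝ) * κ ≤ C ∧ ∀ j ∉ T, Often κ fun k => ∀ f ∈ F,
          |meanK K (h k) (fun p v => f (y p v, a j p (under K₀ K v)))
            - meanK K (h k) (fun p v => ∫ t, f (y p v, t) ∂(μ j))| ≤ ε) ∧
    -- (4) Bessel's inequality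
    (∀ (K₀ K : Type) [Field K₀] [NumberField K₀] [Field K] [NumberField K] [Algebra K₀ K]
      (X : Type) [TopologicalSpace X] [MeasurableSpace X] [BorelSpace X] (J : Type)
      (a : J → OnPrimes K₀ X) (μ : J → Measure X) [∀ j, IsProbabilityMeasure (μ j)]
      (S : Finset J), PairLaw K₀ a μ S → 2 ≤ S.card →
      ∀ (n : ℕ) (φ : J → Fin n → X → ℝ), (∀ j i, Continuous (φ j i)) →
      (∀ j i, ∫ t, φ j i t ∂(μ j) = 0) →
      (∀ j i i', ∫ t, φ j i t * φ j i' t ∂(μ j) = if i = i' then 1 else 0) →
      ∀ d ε : ℝ, 0 < ε → ∃ x₀ : ℕ, ∀ x ≥ x₀, ∀ w : OnPrimes K ℝ, (∀ p v, |w p v| ≤ d) →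
        ∑ j ∈ S, ∑ i, meanK K x (fun p v => w p v * φ j i (a j p (under K₀ K v))) ^ 2 ≤
          Module.finrank K₀ K * meanK K x (fun p v => w p v ^ 2) + ε) ∧
    -- (5) products of elliptic curves
    (∀ (g D : ℕ) (ε : ℝ), 0 < ε →
      ∃ C : ℕ, ∀ (K₀ K : Type) [Field K₀] [NumberField K₀] [Field K] [NumberField K]
        [Algebra K₀ K], Module.finrank K₀ K ≤ D →
        ∀ S : Finset (𝓞 K₀ × 𝓞 K₀), PairLaw K₀ angle (fun _ => st) S →
        ∃ x₀ : ℕ, ∀ x ≥ x₀,
        ∃ T : Finset (Fin (g + 1) → 𝓞 K₀ × 𝓞 K₀), T.card ≤ C * S.card ^ g ∧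
          ∀ e : Fin (g + 1) → 𝓞 K₀ × 𝓞 K₀, (∀ i, e i ∈ S) → e ∉ T →
          ∀ f : (Fin (g + 1) → Set.Icc (0 : ℝ) Real.pi) → ℝ, LipschitzWith 1 f →
          |meanK K x (fun p v => f fun i => angle (e i) p (under K₀ K v))
            - ∫ t, f t ∂(Measure.pi fun _ => st)| ≤ ε) := by
  refine ⟨?_, ?_, ?_, ?_⟩
  · intro g Y X _ _ _ _ _ _ F hF B hB D ε hε
    exact three g hF hB D hε
  · intro Y X _ _ _ _ _ _ F hF B hB D ε hε
    exact four hF hB D hε
  · intro K₀ K _ _ _ _ _ X _ _ _ J a μ _ S hS hcard n φ hφ h0 h1 d ε hε
    exact five K₀ K a μ S hS hcard φ hφ h0 h1 d ε hε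
  · intro g D ε hε
    exact six g D hε

end Pool.Agent.Results.MP_c481b3_nt.PairsToProducts
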